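import Pool.Agent.U317.CE.Rolle

set_option autoImplicit false

/-! The functions which govern the stationary points of the distance between a circle and an ellipse
with a focus at its centre, and their derivatives. `e` is the eccentricity, `c` the cosine of the
mutual inclination, `w` the angle from the pericentre to the line of nodes, `x` the true anomaly. -/

namespace Pool.Agent.U317.CE

open Set Real

noncomputable section

def kk (e x : ℝ) : ℝ := 1 + e * cos x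
def Af (c w x : ℝ) : ℝ := cos (x - w) ^ 2 + c ^ 2 * sin (x - w) ^ 2
def Bf (c w x : ℝ) : ℝ := (1 - c ^ 2) * (sin (x - w) * cos (x - w))
def Nf (e c w x : ℝ) : ℝ := e * sin x * Af c w x - kk e x * Bf c w x
def Pf (e c w x : ℝ) : ℝ :=
  (1 + 2 * e * cos x + e ^ 2) * sin x * Af c w x ^ 2
    - kk e x * (e + cos x) * Af c w x * Bf c w x - c ^ 2 * kk e x ^ 2 * sin x
def Mf (e w x : ℝ) : ℝ :=
  2 * e * sin x ^ 5 * cos (2 * w)
    - sin (2 * w) * (1 + e ^ 2 + e * cos x * (2 + sin x ^ 2 + 2 * sin x ^ 4))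
def Qf (e w x : ℝ) : ℝ :=
  -4 * sin x ^ 3 * cos (2 * w) + 2 * sin (2 * w) * (cos x * (1 + 2 * sin x ^ 2) + e)

def Nf' (e c w x : ℝ) : ℝ :=
  (e * cos x) * Af c w x + e * sin x * (-2 * Bf c w x)
    - ((-e * sin x) * Bf c w x + kk e x * (2 * Af c w x - 1 - c ^ 2))
def Pf' (e c w x : ℝ) : ℝ :=
  (-2 * e * sin x) * sin x * Af c w x ^ 2 + (1 + 2 * e * cos x + e ^ 2) * cos x * Af c w x ^ 2
    + (1 + 2 * e * cos x + e ^ 2) * sin x * (2 * Af c w x * (-2 * Bf c w x))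
    - ((-e * sin x) * (e + cos x) * Af c w x * Bf c w x + kk e x * (-sin x) * Af c w x * Bf c w x
      + kk e x * (e + cos x) * (-2 * Bf c w x) * Bf c w x
      + kk e x * (e + cos x) * Af c w x * (2 * Af c w x - 1 - c ^ 2))
    - (c ^ 2 * (2 * kk e x * (-e * sin x)) * sin x + c ^ 2 * kk e x ^ 2 * cos x)

lemma hkk (e x : ℝ) : HasDerivAt (kk e) (-e * sin x) x := by
  have h := ((hasDerivAt_cos x).const_mul e).const_add 1
  refine h.congr_deriv ?_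
  ring

lemma hsinw (w x : ℝ) : HasDerivAt (fun y => sin (y - w)) (cos (x - w)) x := by
  have h := ((hasDerivAt_id x).sub_const w).sin
  simpa using h

lemma hcosw (w x : ℝ) : HasDerivAt (fun y => cos (y - w)) (-sin (x - w)) x := by
  have h := ((hasDerivAt_id x).sub_const w).cos
  simpa using h

lemma hAf (c w x : ℝ) : HasDerivAt (Af c w) (-2 * Bf c w x) x := by
  have h := ((hcosw w x).pow 2).add (((hsinw w x).pow 2).const_mul (c ^ 2))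
  refine h.congr_deriv ?_
  simp only [Bf]
  push_cast
  ring

lemma hBf (c w x : ℝ) : HasDerivAt (Bf c w) (2 * Af c w x - 1 - c ^ 2) x := by
  have h := ((hsinw w x).mul (hcosw w x)).const_mul (1 - c ^ 2)
  refine h.congr_deriv ?_
  simp only [Af]
  have h1 := sin_sq_add_cos_sq (x - w)
  linear_combination (-1 - c ^ 2) * h1

lemma hNf (e c w x : ℝ) : HasDerivAt (Nf e c w) (Nf' e c w x) x := by
  have h := (((hasDerivAt_sin x).const_mul e).mul (hAf c w x)).sub ((hkk e x).mul (hBf c w x))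
  refine h.congr_deriv ?_
  simp only [Nf']

lemma hPf (e c w x : ℝ) : HasDerivAt (Pf e c w) (Pf' e c w x) x := by
  have h1 := (((((hasDerivAt_cos x).const_mul (2 * e)).const_add 1).add_const (e ^ 2)).mul
    (hasDerivAt_sin x)).mul ((hAf c w x).pow 2)
  have h2 := (((hkk e x).mul ((hasDerivAt_cos x).const_add e)).mul (hAf c w x)).mul (hBf c w x)
  have h3 := ((((hkk e x).pow 2).const_mul (c ^ 2))).mul (hasDerivAt_sin x)
  have h := (h1.sub h2).sub h3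
  refine HasDerivAt.congr_deriv (h.congr_of_eventuallyEq (Filter.Eventually.of_forall fun y => ?_)) ?_
  · simp only [Pf, Pi.mul_apply, Pi.sub_apply, Pi.pow_apply]
  · simp only [Pf', Pi.mul_apply, Pi.pow_apply]
    push_cast
    ring

lemma relAB (c w x : ℝ) : Bf c w x ^ 2 = (1 + c ^ 2) * Af c w x - Af c w x ^ 2 - c ^ 2 := by
  have h := sin_sq_add_cos_sq (x - w)
  simp only [Af, Bf]
  set a := sin (x - w)
  set b := cos (x - w)
  linear_combination (a ^ 2 * c ^ 4 + b ^ 2 - c ^ 2) * h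

lemma cos_eq' (w x : ℝ) : cos x = cos (x - w) * cos w - sin (x - w) * sin w := by
  rw [← cos_add]; ring_nf

lemma sin_eq' (w x : ℝ) : sin x = sin (x - w) * cos w + cos (x - w) * sin w := by
  rw [← sin_add]; ring_nf

lemma relS (c w x : ℝ) : (1 - c ^ 2) * sin (2 * w)
    = 2 * cos x * sin x * (2 * Af c w x - 1 - c ^ 2) - 2 * (cos x ^ 2 - sin x ^ 2) * Bf c w x := by
  rw [sin_two_mul, cos_eq' w x, sin_eq' w x]
  have h := sin_sq_add_cos_sq (x - w)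
  simp only [Af, Bf]
  set a := sin (x - w)
  set b := cos (x - w)
  set p := cos w
  set q := sin w
  linear_combination (4*a^2*c^2*p*q - 2*a*b*c^2*p^2 + 2*a*b*c^2*q^2 - 2*a*b*p^2 + 2*a*b*q^2
    - 4*b^2*p*q + 2*c^2*p*q - 2*p*q) * h

lemma relC (c w x : ℝ) : (1 - c ^ 2) * cos (2 * w)
    = (cos x ^ 2 - sin x ^ 2) * (2 * Af c w x - 1 - c ^ 2) + 4 * cos x * sin x * Bf c w x := by
  rw [cos_two_mul, cos_eq' w x, sin_eq' w x]
  have h := sin_sq_add_cos_sq (x - w)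
  have h2 := sin_sq_add_cos_sq w
  simp only [Af, Bf]
  set a := sin (x - w)
  set b := cos (x - w)
  set p := cos w
  set q := sin w
  linear_combination (2*a^2*c^2*p^2 - 2*a^2*c^2*q^2 - 2*a^2*p^2 - 2*a^2*q^2 + 2*a^2 + 4*a*b*c^2*p*q
    + 4*a*b*p*q - 2*b^2*p^2 + 2*b^2*q^2 + c^2*p^2 - c^2*q^2 + p^2 + 3*q^2 - 2) * h
    + (2*a^4 + 2*a^2*b^2 - 4*a^2 - 2*b^2 + 2 + (1 - c^2)) * h2

lemma I0 (e c w x : ℝ) : ((-e * sin x) * Nf e c w x + kk e x * Nf' e c w x) * sin x * Af c w x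
    - kk e x * Nf e c w x * (cos x * Af c w x - sin x * Bf c w x) = - Pf e c w x := by
  have h1 := sin_sq_add_cos_sq x
  have h2 := relAB c w x
  simp only [Nf, Nf', Pf, kk]
  set A := Af c w x
  set B := Bf c w x
  set X := cos x
  set Y := sin x
  linear_combination (X*A*B*e^2 - 2*Y*A^2*e^2 + Y*A*e^2*c^2 + Y*A*e^2 - Y*B^2*e^2 - Y*e^2*c^2
    + A*B*e) * h1 + (-2*X*Y*e + Y^3*e^2 - Y*e^2 - Y) * h2

lemma I1 (e c w x : ℝ) : kk e x * sin x * Pf' e c w x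
    - 3 * (kk e x * cos x - e * sin x ^ 2) * Pf e c w x
    = 3 * e * sin x ^ 3 * Nf e c w x ^ 2
      - 3 / 2 * (kk e x ^ 3 * Af c w x * ((1 - c ^ 2) * sin (2 * w))) := by
  have h1 := sin_sq_add_cos_sq x
  have h2 := relAB c w x
  rw [relS c w x]
  simp only [Nf, Pf, Pf', kk]
  set A := Af c w x
  set B := Bf c w x
  set X := cos x
  set Y := sin x
  linear_combination (-3*X^3*A*B*e^3 + 6*X^2*Y*A^2*e^3 - 3*X^2*Y*A*e^3*c^2 - 3*X^2*Y*A*e^3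
    + 2*X^2*Y*e^3*c^2 - 6*X^2*A*B*e^2 + 6*X*Y^2*A*B*e^3 + 12*X*Y*A^2*e^2 - 8*X*Y*A*e^2*c^2
    - 8*X*Y*A*e^2 + 2*X*Y*B^2*e^2 + 6*X*Y*e^2*c^2 - 3*X*A*B*e - 6*Y^3*A^2*e^3 + 3*Y^3*A*e^3*c^2
    + 3*Y^3*A*e^3 - 3*Y^3*B^2*e^3 - 3*Y^3*e^3*c^2 + 6*Y^2*A*B*e^2 + 2*Y*A^2*e^3 + 8*Y*A^2*e
    - 2*Y*A*e^3*c^2 - 2*Y*A*e^3 - 7*Y*A*e*c^2 - 7*Y*A*e + 2*Y*B^2*e^3 + 4*Y*B^2*e + 2*Y*e^3*c^2
    + 6*Y*e*c^2) * h1
    + (-8*X*Y^3*e^2 + 6*X*Y*e^2 + 2*X*Y + 3*Y^5*e^3 - 5*Y^3*e^3 - 7*Y^3*e + 2*Y*e^3 + 6*Y*e) * h2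

lemma I2 (e c w x : ℝ) : sin x * Pf' e c w x - 3 * cos x * Pf e c w x
    = 3 / 2 * (Af c w x * ((1 - c ^ 2) * Mf e w x)) := by
  have h1 := sin_sq_add_cos_sq x
  have h2 := relAB c w x
  have e1 : (1 - c ^ 2) * Mf e w x = 2 * e * sin x ^ 5 * ((1 - c ^ 2) * cos (2 * w))
    - ((1 - c ^ 2) * sin (2 * w)) * (1 + e ^ 2 + e * cos x * (2 + sin x ^ 2 + 2 * sin x ^ 4)) := by
    simp only [Mf]; ring
  rw [e1, relS c w x, relC c w x]
  simp only [Pf, Pf', kk]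
  set A := Af c w x
  set B := Bf c w x
  set X := cos x
  set Y := sin x
  linear_combination (-6*X*Y^4*A*B*e - 3*X*Y^2*A*B*e + 2*X*Y*e^2*c^2 - 3*X*A*B*e + 6*Y^5*A^2*e
    - 3*Y^5*A*e*c^2 - 3*Y^5*A*e + 6*Y^3*A^2*e - 3*Y^3*A*e*c^2 - 3*Y^3*A*e + 6*Y*A^2*e - 5*Y*A*e*c^2
    - 5*Y*A*e + 2*Y*B^2*e + 4*Y*e*c^2) * h1
    + (2*X*Y*e^2 + 2*X*Y - 2*Y^3*e + 4*Y*e) * h2

lemma I4 (e c w x : ℝ) : sin x * Nf' e c w x - cos x * Nf e c w x
    = - (1 / 4) * ((1 - c ^ 2) * Qf e w x) := by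
  have h1 := sin_sq_add_cos_sq x
  have e1 : (1 - c ^ 2) * Qf e w x = -4 * sin x ^ 3 * ((1 - c ^ 2) * cos (2 * w))
    + 2 * ((1 - c ^ 2) * sin (2 * w)) * (cos x * (1 + 2 * sin x ^ 2) + e) := by
    simp only [Qf]; ring
  rw [e1, relS c w x, relC c w x]
  simp only [Nf, Nf', kk]
  set A := Af c w x
  set B := Bf c w x
  set X := cos x
  set Y := sin x
  linear_combination (-2*X*Y^2*B - X*B + 2*Y^3*A - Y^3*c^2 - Y^3 + 2*Y*A - Y*c^2 - Y) * h1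

end

end Pool.Agent.U317.CE
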