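import Pool.Agent.U317.CE.Core

set_option autoImplicit false

/-! Counting the zeros. -/

namespace Pool.Agent.U317.CE

open Set Real

noncomputable section

def Mf' (e w x : ℝ) : ℝ :=
  2 * e * (5 * sin x ^ 4 * cos x) * cos (2 * w)
    - sin (2 * w) * ((-e * sin x) * (2 + sin x ^ 2 + 2 * sin x ^ 4)
      + e * cos x * (2 * sin x * cos x + 2 * (4 * sin x ^ 3 * cos x)))
def Qf' (e w x : ℝ) : ℝ :=
  -4 * (3 * sin x ^ 2 * cos x) * cos (2 * w)
    + 2 * sin (2 * w) * ((-sin x) * (1 + 2 * sin x ^ 2) + cos x * (2 * (2 * sin x * cos x)))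

lemma hMf (e w x : ℝ) : HasDerivAt (Mf e w) (Mf' e w x) x := by
  have hs := hasDerivAt_sin x
  have hc := hasDerivAt_cos x
  have h := (((hs.pow 5).const_mul (2 * e)).mul_const (cos (2 * w))).sub
    ((((hc.const_mul e).mul (((hs.pow 2).const_add 2).add ((hs.pow 4).const_mul 2))).const_add
      (1 + e ^ 2)).const_mul (sin (2 * w)))
  refine HasDerivAt.congr_deriv (h.congr_of_eventuallyEq (Filter.Eventually.of_forall fun y => ?_)) ?_
  · simp only [Mf, Pi.mul_apply, Pi.sub_apply, Pi.pow_apply, Pi.add_apply]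
  · simp only [Mf', Pi.mul_apply, Pi.pow_apply, Pi.add_apply]
    push_cast
    ring

lemma hQf (e w x : ℝ) : HasDerivAt (Qf e w) (Qf' e w x) x := by
  have hs := hasDerivAt_sin x
  have hc := hasDerivAt_cos x
  have h := (((hs.pow 3).const_mul (-4)).mul_const (cos (2 * w))).add
    (((hc.mul (((hs.pow 2).const_mul 2).const_add 1)).add_const e).const_mul (2 * sin (2 * w)))
  refine HasDerivAt.congr_deriv (h.congr_of_eventuallyEq (Filter.Eventually.of_forall fun y => ?_)) ?_
  · simp only [Qf, Pi.mul_apply, Pi.add_apply, Pi.pow_apply]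
  · simp only [Qf', Pi.pow_apply]
    push_cast
    ring

lemma I3 (e w x : ℝ) : sin x * Mf' e w x - 5 * cos x * Mf e w x
    = 5 * sin (2 * w) * (cos x + e) * kk e x := by
  have h1 := sin_sq_add_cos_sq x
  simp only [Mf, Mf', kk]
  set X := cos x
  set Y := sin x
  set S := sin (2 * w)
  linear_combination (2*Y^4*e*S + 3*Y^2*e*S + 5*e*S) * h1

lemma I5 (e w x : ℝ) : sin x * Qf' e w x - 3 * cos x * Qf e w x
    = - 6 * sin (2 * w) * kk e x := by
  have h1 := sin_sq_add_cos_sq x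
  simp only [Qf, Qf', kk]
  set X := cos x
  set Y := sin x
  set S := sin (2 * w)
  linear_combination (-4*Y^2*S - 6*S) * h1

lemma kk_pos {e : ℝ} (he0 : 0 < e) (he1 : e < 1) (x : ℝ) : 0 < kk e x := by
  unfold kk
  nlinarith [neg_one_le_cos x, cos_le_one x]

lemma sin_pos' {x : ℝ} (hx : x ∈ Ioo 0 π) : 0 < sin x := sin_pos_of_pos_of_lt_pi hx.1 hx.2

lemma Af_pos {c : ℝ} (hc : c ≠ 0) (w x : ℝ) : 0 < Af c w x := by
  have h := sin_sq_add_cos_sq (x - w)
  unfold Af
  have hc2 : 0 < c ^ 2 := by positivity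
  by_cases h0 : cos (x - w) = 0
  · have : sin (x - w) ^ 2 = 1 := by rw [h0] at h; linarith
    rw [this, h0]; linarith
  · have : 0 < cos (x - w) ^ 2 := by positivity
    have h3 : 0 ≤ c ^ 2 * sin (x - w) ^ 2 := by positivity
    linarith

/-- derivative of `g / sin ^ n` -/
lemma div_sin {g g' : ℝ → ℝ} {x : ℝ} (hx : x ∈ Ioo 0 π) (hg : HasDerivAt g (g' x) x) (n : ℕ) :
    HasDerivAt (fun y => g y / sin y ^ (n + 1))
      ((sin x * g' x - (n + 1) * cos x * g x) / sin x ^ (n + 2)) x := by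
  have hY := sin_pos' hx
  have hs : HasDerivAt (fun y => sin y ^ (n + 1)) (((n + 1 : ℕ) : ℝ) * sin x ^ n * cos x) x := by
    have h0 : HasDerivAt (sin ^ (n + 1)) (((n + 1 : ℕ) : ℝ) * sin x ^ (n + 1 - 1) * cos x) x :=
      (hasDerivAt_sin x).pow (n + 1)
    exact h0
  have h : HasDerivAt (fun y => g y / sin y ^ (n + 1)) _ x := hg.div hs (pow_ne_zero _ hY.ne')
  refine h.congr_deriv ?_
  have h1 : (sin x ^ (n + 1)) ^ 2 ≠ 0 := pow_ne_zero _ (pow_ne_zero _ hY.ne')
  have h2 : sin x ^ (n + 2) ≠ 0 := pow_ne_zero _ hY.ne'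
  rw [div_eq_div_iff h1 h2]
  push_cast
  ring

lemma cntC (e : ℝ) : {x | x ∈ Ioo 0 π ∧ cos x + e = 0}.encard ≤ 1 := by
  rw [Set.encard_le_one_iff]
  rintro a b ⟨ha, ha'⟩ ⟨hb, hb'⟩
  exact injOn_cos (Ioo_subset_Icc_self ha) (Ioo_subset_Icc_self hb) (by linarith)

lemma cntM {e w : ℝ} (he0 : 0 < e) (he1 : e < 1) (hw : sin (2 * w) ≠ 0) :
    {x | x ∈ Ioo 0 π ∧ Mf e w x = 0}.encard ≤ 2 := by
  have h := rolle (f := fun y => Mf e w y / sin y ^ (4 + 1))
    (f' := fun x => (sin x * Mf' e w x - ((4 : ℕ) + 1) * cos x * Mf e w x) / sin x ^ (4 + 2))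
    (A := {x | x ∈ Ioo 0 π ∧ Mf e w x = 0}) (B := {x | x ∈ Ioo 0 π ∧ cos x + e = 0})
    (a := 0) (b := π)
    (fun x hx => div_sin hx (hMf e w x) 4) 0
    (fun x hx => ⟨hx.1, by simp only [hx.2, zero_div]⟩) ?_
  · refine h.trans ?_
    refine (add_le_add_left (cntC e) 1).trans ?_
    norm_num
  · intro x hx h0
    have hY := sin_pos' hx
    refine ⟨hx, ?_⟩
    rw [div_eq_zero_iff] at h0
    rcases h0 with h0 | h0
    · have h1 := I3 e w x
      push_cast at h0
      rw [show (sin x * Mf' e w x - (4 + 1) * cos x * Mf e w x)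
        = sin x * Mf' e w x - 5 * cos x * Mf e w x by ring, h1] at h0
      have hk := kk_pos he0 he1 x
      rcases mul_eq_zero.1 h0 with h2 | h2
      · rcases mul_eq_zero.1 h2 with h3 | h3
        · exfalso; apply hw; linarith
        · exact h3
      · exact absurd h2 hk.ne'
    · exact absurd h0 (by positivity)

lemma cntQ {e w : ℝ} (he0 : 0 < e) (he1 : e < 1) (hw : sin (2 * w) ≠ 0) :
    {x | x ∈ Ioo 0 π ∧ Qf e w x = 0}.encard ≤ 1 := by
  have h := rolle (f := fun y => Qf e w y / sin y ^ (2 + 1))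
    (f' := fun x => (sin x * Qf' e w x - ((2 : ℕ) + 1) * cos x * Qf e w x) / sin x ^ (2 + 2))
    (A := {x | x ∈ Ioo 0 π ∧ Qf e w x = 0}) (B := ∅)
    (a := 0) (b := π)
    (fun x hx => div_sin hx (hQf e w x) 2) 0
    (fun x hx => ⟨hx.1, by simp only [hx.2, zero_div]⟩) ?_
  · simpa using h
  · intro x hx h0
    exfalso
    have hY := sin_pos' hx
    rw [div_eq_zero_iff] at h0
    rcases h0 with h0 | h0
    · have h1 := I5 e w x
      push_cast at h0
      rw [show (sin x * Qf' e w x - (2 + 1) * cos x * Qf e w x)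
        = sin x * Qf' e w x - 3 * cos x * Qf e w x by ring, h1] at h0
      have hk := kk_pos he0 he1 x
      rcases mul_eq_zero.1 h0 with h2 | h2
      · apply hw; linarith
      · exact absurd h2 hk.ne'
    · exact absurd h0 (by positivity)

lemma cntN_gen {e c w : ℝ} (hc : 1 - c ^ 2 ≠ 0) :
    {x | x ∈ Ioo 0 π ∧ Nf e c w x = 0}.encard ≤ {x | x ∈ Ioo 0 π ∧ Qf e w x = 0}.encard + 1 := by
  refine rolle (f := fun y => Nf e c w y / sin y ^ (0 + 1))
    (f' := fun x => (sin x * Nf' e c w x - ((0 : ℕ) + 1) * cos x * Nf e c w x) / sin x ^ (0 + 2))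
    (a := 0) (b := π)
    (fun x hx => div_sin hx (hNf e c w x) 0) 0
    (fun x hx => ⟨hx.1, by simp only [hx.2, zero_div]⟩) ?_
  intro x hx h0
  have hY := sin_pos' hx
  refine ⟨hx, ?_⟩
  rw [div_eq_zero_iff] at h0
  rcases h0 with h0 | h0
  · have h1 := I4 e c w x
    push_cast at h0
    rw [show (sin x * Nf' e c w x - (0 + 1) * cos x * Nf e c w x)
      = sin x * Nf' e c w x - cos x * Nf e c w x by ring, h1] at h0
    rcases mul_eq_zero.1 h0 with h2 | h2
    · norm_num at h2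
    · rcases mul_eq_zero.1 h2 with h3 | h3
      · exact absurd h3 hc
      · exact h3
  · exact absurd h0 (by positivity)

lemma cntP_gen {e c w : ℝ} (hc : 1 - c ^ 2 ≠ 0) (hc0 : c ≠ 0) :
    {x | x ∈ Ioo 0 π ∧ Pf e c w x = 0}.encard ≤ {x | x ∈ Ioo 0 π ∧ Mf e w x = 0}.encard + 1 := by
  refine rolle (f := fun y => Pf e c w y / sin y ^ (2 + 1))
    (f' := fun x => (sin x * Pf' e c w x - ((2 : ℕ) + 1) * cos x * Pf e c w x) / sin x ^ (2 + 2))
    (a := 0) (b := π)
    (fun x hx => div_sin hx (hPf e c w x) 2) 0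
    (fun x hx => ⟨hx.1, by simp only [hx.2, zero_div]⟩) ?_
  intro x hx h0
  have hY := sin_pos' hx
  have hA := Af_pos hc0 w x
  refine ⟨hx, ?_⟩
  rw [div_eq_zero_iff] at h0
  rcases h0 with h0 | h0
  · have h1 := I2 e c w x
    push_cast at h0
    rw [show (sin x * Pf' e c w x - (2 + 1) * cos x * Pf e c w x)
      = sin x * Pf' e c w x - 3 * cos x * Pf e c w x by ring, h1] at h0
    rcases mul_eq_zero.1 h0 with h2 | h2
    · norm_num at h2
    · rcases mul_eq_zero.1 h2 with h3 | h3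
      · exact absurd h3 hA.ne'
      · rcases mul_eq_zero.1 h3 with h4 | h4
        · exact absurd h4 hc
        · exact h4
  · exact absurd h0 (by positivity)

/-- when `(1 - c²) sin 2w < 0` the function `P` has at most one zero -/
lemma cntP_neg {e c w : ℝ} (he0 : 0 < e) (he1 : e < 1) (hc0 : c ≠ 0)
    (hs : (1 - c ^ 2) * sin (2 * w) < 0) :
    {x | x ∈ Ioo 0 π ∧ Pf e c w x = 0}.encard ≤ 1 := by
  have h := rolle (f := fun y => Pf e c w y / (kk e y * sin y) ^ 3)
    (f' := fun x => (kk e x * sin x * Pf' e c w x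
      - 3 * (kk e x * cos x - e * sin x ^ 2) * Pf e c w x) / (kk e x * sin x) ^ 4)
    (A := {x | x ∈ Ioo 0 π ∧ Pf e c w x = 0}) (B := ∅)
    (a := 0) (b := π) (fun x hx => ?_) 0
    (fun x hx => ⟨hx.1, by simp only [hx.2, zero_div]⟩) ?_
  · simpa using h
  · have hY := sin_pos' hx
    have hk := kk_pos he0 he1 x
    have h := (hPf e c w x).div (((hkk e x).mul (hasDerivAt_sin x)).pow 3)
      (pow_ne_zero _ (mul_pos hk hY).ne')
    refine h.congr_deriv ?_
    rw [div_eq_div_iff (by simp only [Pi.pow_apply, Pi.mul_apply]; positivity) (by positivity)]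
    simp only [Pi.pow_apply, Pi.mul_apply]
    push_cast
    ring
  · intro x hx h0
    exfalso
    have hY := sin_pos' hx
    have hk := kk_pos he0 he1 x
    have hA := Af_pos hc0 w x
    rw [div_eq_zero_iff, I1] at h0
    rcases h0 with h0 | h0
    · have h2 : 0 ≤ 3 * e * sin x ^ 3 * Nf e c w x ^ 2 := by positivity
      have h3 : kk e x ^ 3 * Af c w x * ((1 - c ^ 2) * sin (2 * w)) < 0 :=
        mul_neg_of_pos_of_neg (by positivity) hs
      linarith
    · exact absurd h0 (by positivity)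

/-- the solution set in `(0, π)` -/
def Sol (e c w v : ℝ) : Set ℝ :=
  {x | x ∈ Ioo 0 π ∧ (kk e x * Nf e c w x) ^ 2 = v * (sin x ^ 2 * Af c w x)}

lemma cntSol_gen {e c w v : ℝ} (he0 : 0 < e) (he1 : e < 1) (hc0 : c ≠ 0) :
    (Sol e c w v).encard ≤ {x | x ∈ Ioo 0 π ∧ Nf e c w x = 0}.encard
      + {x | x ∈ Ioo 0 π ∧ Pf e c w x = 0}.encard + 1 := by
  refine (rolle (f := fun y => (kk e y * Nf e c w y) ^ 2 / (sin y ^ 2 * Af c w y))
    (f' := fun x => (-2 * kk e x * Nf e c w x * Pf e c w x) / (sin x ^ 3 * Af c w x ^ 2))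
    (A := Sol e c w v)
    (B := {x | x ∈ Ioo 0 π ∧ Nf e c w x = 0} ∪ {x | x ∈ Ioo 0 π ∧ Pf e c w x = 0})
    (a := 0) (b := π) (fun x hx => ?_) v (fun x hx => ⟨hx.1, ?_⟩) ?_).trans
    (add_le_add_left (Set.encard_union_le _ _) 1)
  · have hY := sin_pos' hx
    have hk := kk_pos he0 he1 x
    have hA := Af_pos hc0 w x
    have h := ((((hkk e x).mul (hNf e c w x)).pow 2)).div
      (((hasDerivAt_sin x).pow 2).mul (hAf c w x)) (by
        simp only [Pi.mul_apply, Pi.pow_apply]; positivity)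
    refine h.congr_deriv ?_
    rw [div_eq_div_iff (by simp only [Pi.pow_apply, Pi.mul_apply]; positivity) (by positivity)]
    simp only [Pi.pow_apply, Pi.mul_apply]
    push_cast
    have h0 := I0 e c w x
    have e1 : Pf e c w x = -(((-e * sin x) * Nf e c w x + kk e x * Nf' e c w x) * sin x * Af c w x
      - kk e x * Nf e c w x * (cos x * Af c w x - sin x * Bf c w x)) := by linarith
    rw [e1]
    ring
  · have hY := sin_pos' hx.1
    have hA := Af_pos hc0 w x
    rw [div_eq_iff (by positivity)]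
    exact hx.2
  · intro x hx h0
    have hY := sin_pos' hx
    have hk := kk_pos he0 he1 x
    have hA := Af_pos hc0 w x
    rw [div_eq_zero_iff] at h0
    rcases h0 with h0 | h0
    · rcases mul_eq_zero.1 h0 with h1 | h1
      · rcases mul_eq_zero.1 h1 with h2 | h2
        · rcases mul_eq_zero.1 h2 with h3 | h3
          · norm_num at h3
          · exact absurd h3 hk.ne'
        · exact Or.inl ⟨hx, h2⟩
      · exact Or.inr ⟨hx, h1⟩
    · exact absurd h0 (by positivity)

lemma cntSol_pos {e c w v : ℝ} (he0 : 0 < e) (he1 : e < 1) (hc0 : c ≠ 0) (hc : 1 - c ^ 2 ≠ 0)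
    (hw : sin (2 * w) ≠ 0) : (Sol e c w v).encard ≤ 6 := by
  have h1 := cntSol_gen (w := w) (v := v) he0 he1 hc0
  have h2 := (cntN_gen (e := e) (w := w) hc).trans (add_le_add_left (cntQ he0 he1 hw) 1)
  have h3 := (cntP_gen (e := e) (w := w) hc hc0).trans (add_le_add_left (cntM he0 he1 hw) 1)
  refine h1.trans ((add_le_add_left (add_le_add h2 h3) 1).trans ?_)
  norm_num

lemma cntSol_neg {e c w v : ℝ} (he0 : 0 < e) (he1 : e < 1) (hc0 : c ≠ 0) (hc : 0 < 1 - c ^ 2)
    (hw : sin (2 * w) < 0) : (Sol e c w v).encard ≤ 4 := by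
  have h1 := cntSol_gen (w := w) (v := v) he0 he1 hc0
  have h2 := (cntN_gen (e := e) (w := w) hc.ne').trans (add_le_add_left (cntQ he0 he1 hw.ne) 1)
  have h3 := cntP_neg (w := w) he0 he1 hc0 (mul_neg_of_pos_of_neg hc hw)
  refine h1.trans ((add_le_add_left (add_le_add h2 h3) 1).trans ?_)
  norm_num

lemma cntSol_zero {e c w v : ℝ} (he0 : 0 < e) (he1 : e < 1) (hc0 : c ≠ 0) (hc : 1 - c ^ 2 ≠ 0)
    (hw : sin (2 * w) = 0) : (Sol e c w v).encard ≤ 3 := by
  have h1 := cntSol_gen (w := w) (v := v) he0 he1 hc0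
  have hcw : cos (2 * w) ≠ 0 := by
    intro h
    have := sin_sq_add_cos_sq (2 * w)
    rw [hw, h] at this
    norm_num at this
  have hQ : {x | x ∈ Ioo 0 π ∧ Qf e w x = 0} = ∅ := by
    ext x
    simp only [mem_ofPred_eq, mem_empty_iff_false, iff_false, not_and]
    intro hx h0
    have hY := sin_pos' hx
    simp only [Qf, hw, mul_zero, zero_mul, add_zero] at h0
    rcases mul_eq_zero.1 h0 with h | h
    · have : 0 < sin x ^ 3 := by positivity
      linarith
    · exact hcw h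
  have hM : {x | x ∈ Ioo 0 π ∧ Mf e w x = 0} = ∅ := by
    ext x
    simp only [mem_ofPred_eq, mem_empty_iff_false, iff_false, not_and]
    intro hx h0
    have hY := sin_pos' hx
    simp only [Mf, hw, zero_mul, sub_zero] at h0
    rcases mul_eq_zero.1 h0 with h | h
    · have : 0 < 2 * e * sin x ^ 5 := by positivity
      linarith
    · exact hcw h
  have h2 := cntN_gen (e := e) (w := w) hc
  have h3 := cntP_gen (e := e) (w := w) hc hc0
  rw [hQ, Set.encard_empty] at h2
  rw [hM, Set.encard_empty] at h3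
  refine h1.trans ((add_le_add_left (add_le_add h2 h3) 1).trans ?_)
  norm_num

lemma cntSol_flat {e c w v : ℝ} (he0 : 0 < e) (he1 : e < 1) (hc0 : c ≠ 0) (hc : 1 - c ^ 2 = 0) :
    (Sol e c w v).encard ≤ 1 := by
  have h1 := cntSol_gen (w := w) (v := v) he0 he1 hc0
  have hc2 : c ^ 2 = 1 := by linarith
  have hA : ∀ x, Af c w x = 1 := fun x => by
    simp only [Af, hc2, one_mul]; linarith [sin_sq_add_cos_sq (x - w)]
  have hB : ∀ x, Bf c w x = 0 := fun x => by simp only [Bf, hc, zero_mul]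
  have hN : {x | x ∈ Ioo 0 π ∧ Nf e c w x = 0} = ∅ := by
    ext x
    simp only [mem_ofPred_eq, mem_empty_iff_false, iff_false, not_and]
    intro hx h0
    have hY := sin_pos' hx
    simp only [Nf, hA, hB, mul_zero, mul_one, sub_zero] at h0
    have : 0 < e * sin x := by positivity
    linarith
  have hP : {x | x ∈ Ioo 0 π ∧ Pf e c w x = 0} = ∅ := by
    ext x
    simp only [mem_ofPred_eq, mem_empty_iff_false, iff_false, not_and]
    intro hx h0
    have hY := sin_pos' hx
    have e1 : Pf e c w x = e ^ 2 * sin x ^ 3 := by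
      simp only [Pf, hA, hB, hc2, kk]
      have h := sin_sq_add_cos_sq x
      linear_combination (-(e ^ 2 * sin x)) * h
    rw [e1] at h0
    have : 0 < e ^ 2 * sin x ^ 3 := by positivity
    linarith
  rw [hN, hP, Set.encard_empty] at h1
  simpa using h1

end

end Pool.Agent.U317.CE
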