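import Pool.Agent.U317.CE.Count

set_option autoImplicit false

/-! The case of perpendicular planes. -/

namespace Pool.Agent.U317.CE

open Set Real

noncomputable section

def N0 (e w x : ℝ) : ℝ := e * sin w - sin (x - w)
def N0' (w x : ℝ) : ℝ := - cos (x - w)
def P0 (e w x : ℝ) : ℝ :=
  sin w * (1 + e ^ 2 + 3 * e * cos x - e * cos x ^ 3) - e * sin x ^ 3 * cos w
def P0' (e w x : ℝ) : ℝ :=
  sin w * (-3 * e * sin x + 3 * e * cos x ^ 2 * sin x) - e * (3 * sin x ^ 2 * cos x) * cos w

lemma hN0 (e w x : ℝ) : HasDerivAt (N0 e w) (N0' w x) x := by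
  have h := (hsinw w x).const_sub (e * sin w)
  exact h

lemma hP0 (e w x : ℝ) : HasDerivAt (P0 e w) (P0' e w x) x := by
  have hs := hasDerivAt_sin x
  have hc := hasDerivAt_cos x
  have h := (((((hc.const_mul (3 * e)).const_add (1 + e ^ 2)).sub ((hc.pow 3).const_mul e))).const_mul
    (sin w)).sub (((hs.pow 3).const_mul e).mul_const (cos w))
  refine HasDerivAt.congr_deriv (h.congr_of_eventuallyEq (Filter.Eventually.of_forall fun y => ?_)) ?_
  · simp only [P0, Pi.sub_apply, Pi.pow_apply]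
  · simp only [P0']
    push_cast
    ring

lemma J0 (e w x : ℝ) : ((-e * sin x) * N0 e w x + kk e x * N0' w x) * sin x
    - kk e x * N0 e w x * cos x = - P0 e w x := by
  have h1 := sin_sq_add_cos_sq x
  simp only [N0, N0', P0, kk, sin_sub, cos_sub]
  set X := cos x
  set Y := sin x
  set p := cos w
  set q := sin w
  linear_combination (-2*X*e*q - e^2*q - q) * h1

lemma J1 (e w x : ℝ) : sin x * P0' e w x - 3 * cos x * P0 e w x
    = -3 * sin w * ((cos x + e) * kk e x) := by
  have h1 := sin_sq_add_cos_sq x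
  simp only [P0, P0', kk]
  set X := cos x
  set Y := sin x
  set p := cos w
  set q := sin w
  linear_combination (3*X^2*e*q - 3*e*q) * h1

lemma J2 (e w x : ℝ) : sin x * N0' w x - cos x * N0 e w x = - sin w * kk e x := by
  have h1 := sin_sq_add_cos_sq x
  simp only [N0, N0', kk, sin_sub, cos_sub]
  set X := cos x
  set Y := sin x
  set p := cos w
  set q := sin w
  linear_combination (-q) * h1

lemma cntN0 {e w : ℝ} (he0 : 0 < e) (he1 : e < 1) (hq : sin w ≠ 0) :
    {x | x ∈ Ioo 0 π ∧ N0 e w x = 0}.encard ≤ 1 := by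
  have h := rolle (f := fun y => N0 e w y / sin y ^ (0 + 1))
    (f' := fun x => (sin x * N0' w x - ((0 : ℕ) + 1) * cos x * N0 e w x) / sin x ^ (0 + 2))
    (A := {x | x ∈ Ioo 0 π ∧ N0 e w x = 0}) (B := ∅)
    (a := 0) (b := π)
    (fun x hx => div_sin hx (hN0 e w x) 0) 0
    (fun x hx => ⟨hx.1, by simp only [hx.2, zero_div]⟩) ?_
  · simpa using h
  · intro x hx h0
    exfalso
    have hY := sin_pos' hx
    rw [div_eq_zero_iff] at h0
    rcases h0 with h0 | h0
    · have h1 := J2 e w x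
      push_cast at h0
      rw [show (sin x * N0' w x - (0 + 1) * cos x * N0 e w x)
        = sin x * N0' w x - cos x * N0 e w x by ring, h1] at h0
      have hk := kk_pos he0 he1 x
      rcases mul_eq_zero.1 h0 with h2 | h2
      · apply hq; linarith
      · exact absurd h2 hk.ne'
    · exact absurd h0 (by positivity)

lemma cntP0 {e w : ℝ} (he0 : 0 < e) (he1 : e < 1) (hq : sin w ≠ 0) :
    {x | x ∈ Ioo 0 π ∧ P0 e w x = 0}.encard ≤ 2 := by
  have h := rolle (f := fun y => P0 e w y / sin y ^ (2 + 1))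
    (f' := fun x => (sin x * P0' e w x - ((2 : ℕ) + 1) * cos x * P0 e w x) / sin x ^ (2 + 2))
    (A := {x | x ∈ Ioo 0 π ∧ P0 e w x = 0}) (B := {x | x ∈ Ioo 0 π ∧ cos x + e = 0})
    (a := 0) (b := π)
    (fun x hx => div_sin hx (hP0 e w x) 2) 0
    (fun x hx => ⟨hx.1, by simp only [hx.2, zero_div]⟩) ?_
  · refine h.trans ((add_le_add_left (cntC e) 1).trans ?_)
    norm_num
  · intro x hx h0
    have hY := sin_pos' hx
    refine ⟨hx, ?_⟩
    rw [div_eq_zero_iff] at h0
    rcases h0 with h0 | h0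
    · have h1 := J1 e w x
      push_cast at h0
      rw [show (sin x * P0' e w x - (2 + 1) * cos x * P0 e w x)
        = sin x * P0' e w x - 3 * cos x * P0 e w x by ring, h1] at h0
      have hk := kk_pos he0 he1 x
      rcases mul_eq_zero.1 h0 with h2 | h2
      · exfalso; apply hq; linarith
      · rcases mul_eq_zero.1 h2 with h3 | h3
        · exact h3
        · exact absurd h3 hk.ne'
    · exact absurd h0 (by positivity)

/-- the solution set in `(0, π)` -/
def Sol0 (e w v : ℝ) : Set ℝ :=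
  {x | x ∈ Ioo 0 π ∧ (kk e x * N0 e w x) ^ 2 = v * sin x ^ 2}

lemma cntSol0_gen {e w v : ℝ} (he0 : 0 < e) (he1 : e < 1) :
    (Sol0 e w v).encard ≤ {x | x ∈ Ioo 0 π ∧ N0 e w x = 0}.encard
      + {x | x ∈ Ioo 0 π ∧ P0 e w x = 0}.encard + 1 := by
  refine (rolle (f := fun y => (kk e y * N0 e w y) ^ 2 / sin y ^ 2)
    (f' := fun x => (-2 * kk e x * N0 e w x * P0 e w x) / sin x ^ 3)
    (A := Sol0 e w v)
    (B := {x | x ∈ Ioo 0 π ∧ N0 e w x = 0} ∪ {x | x ∈ Ioo 0 π ∧ P0 e w x = 0})
    (a := 0) (b := π) (fun x hx => ?_) v (fun x hx => ⟨hx.1, ?_⟩) ?_).trans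
    (add_le_add_left (Set.encard_union_le _ _) 1)
  · have hY := sin_pos' hx
    have h := ((((hkk e x).mul (hN0 e w x)).pow 2)).div
      ((hasDerivAt_sin x).pow 2) (by
        simp only [Pi.pow_apply]; positivity)
    refine h.congr_deriv ?_
    rw [div_eq_div_iff (by simp only [Pi.pow_apply]; positivity) (by positivity)]
    simp only [Pi.pow_apply, Pi.mul_apply]
    push_cast
    have h0 := J0 e w x
    have e1 : P0 e w x = -(((-e * sin x) * N0 e w x + kk e x * N0' w x) * sin x
      - kk e x * N0 e w x * cos x) := by linarith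
    rw [e1]
    ring
  · have hY := sin_pos' hx.1
    rw [div_eq_iff (by positivity)]
    exact hx.2
  · intro x hx h0
    have hY := sin_pos' hx
    have hk := kk_pos he0 he1 x
    rw [div_eq_zero_iff] at h0
    rcases h0 with h0 | h0
    · rcases mul_eq_zero.1 h0 with h1 | h1
      · rcases mul_eq_zero.1 h1 with h2 | h2
        · rcases mul_eq_zero.1 h2 with h3 | h3
          · norm_num at h3
          · exact absurd h3 hk.ne'
        · exact Or.inl ⟨hx, h2⟩
      · exact Or.inr ⟨hx, h1⟩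
    · exact absurd h0 (by positivity)

lemma cntSol0_pos {e w v : ℝ} (he0 : 0 < e) (he1 : e < 1) (hq : sin w ≠ 0) :
    (Sol0 e w v).encard ≤ 4 := by
  refine (cntSol0_gen (w := w) (v := v) he0 he1).trans
    ((add_le_add_left (add_le_add (cntN0 he0 he1 hq) (cntP0 he0 he1 hq)) 1).trans ?_)
  norm_num

lemma cube_pos {e w x : ℝ} (he0 : 0 < e) (he1 : e < 1) :
    0 < 1 + e ^ 2 + 3 * e * cos x - e * cos x ^ 3 := by
  have h1 := neg_one_le_cos x
  have h2 := cos_le_one x
  have h3 : -2 ≤ 3 * cos x - cos x ^ 3 := by nlinarith [mul_nonneg (sub_nonneg.2 h2) (sq_nonneg (1 + cos x)), mul_nonneg (by linarith : (0:ℝ) ≤ 1 + cos x) (by linarith : (0:ℝ) ≤ 2 - cos x), sq_nonneg (1 + cos x), mul_nonneg (by linarith : (0:ℝ) ≤ 1 + cos x) (mul_nonneg (by linarith : (0:ℝ) ≤ 1 + cos x) (by linarith : (0:ℝ) ≤ 2 - cos x))]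
  nlinarith [mul_nonneg he0.le (by linarith : (0:ℝ) ≤ 3 * cos x - cos x ^ 3 + 2), mul_pos (sub_pos.2 he1) (sub_pos.2 he1)]

lemma cntSol0_neg {e w v : ℝ} (he0 : 0 < e) (he1 : e < 1) (hq : sin w ≠ 0)
    (hpq : cos w * sin w ≤ 0) : (Sol0 e w v).encard ≤ 2 := by
  have hP : {x | x ∈ Ioo 0 π ∧ P0 e w x = 0} = ∅ := by
    ext x
    simp only [mem_ofPred_eq, mem_empty_iff_false, iff_false, not_and]
    intro hx h0
    have hY := sin_pos' hx
    have h1 : sin w * P0 e w x = 0 := by rw [h0, mul_zero]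
    have h2 : sin w * P0 e w x = sin w ^ 2 * (1 + e ^ 2 + 3 * e * cos x - e * cos x ^ 3)
      + e * sin x ^ 3 * (-(cos w * sin w)) := by simp only [P0]; ring
    have h3 : 0 < sin w ^ 2 * (1 + e ^ 2 + 3 * e * cos x - e * cos x ^ 3) :=
      mul_pos (by positivity) (cube_pos (w := w) he0 he1)
    have h4 : 0 ≤ e * sin x ^ 3 * (-(cos w * sin w)) :=
      mul_nonneg (by positivity) (by linarith)
    linarith
  have h1 := cntSol0_gen (w := w) (v := v) he0 he1
  rw [hP, Set.encard_empty, add_zero] at h1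
  refine h1.trans ((add_le_add_left (cntN0 he0 he1 hq) 1).trans ?_)
  norm_num

lemma cntSol0_flat {e w v : ℝ} (he0 : 0 < e) (he1 : e < 1) (hq : sin w = 0) :
    (Sol0 e w v).encard ≤ 1 := by
  have hp : cos w ≠ 0 := by
    intro h
    have := sin_sq_add_cos_sq w
    rw [hq, h] at this
    norm_num at this
  have hP : {x | x ∈ Ioo 0 π ∧ P0 e w x = 0} = ∅ := by
    ext x
    simp only [mem_ofPred_eq, mem_empty_iff_false, iff_false, not_and]
    intro hx h0
    have hY := sin_pos' hx
    simp only [P0, hq, zero_mul, zero_sub, neg_eq_zero] at h0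
    rcases mul_eq_zero.1 h0 with h | h
    · have : 0 < e * sin x ^ 3 := by positivity
      linarith
    · exact hp h
  have hN : {x | x ∈ Ioo 0 π ∧ N0 e w x = 0} = ∅ := by
    ext x
    simp only [mem_ofPred_eq, mem_empty_iff_false, iff_false, not_and]
    intro hx h0
    have hY := sin_pos' hx
    simp only [N0, hq, sin_sub, mul_zero, sub_zero, zero_sub, neg_eq_zero] at h0
    rcases mul_eq_zero.1 h0 with h | h
    · linarith
    · exact hp h
  have h1 := cntSol0_gen (w := w) (v := v) he0 he1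
  rw [hP, hN, Set.encard_empty] at h1
  simpa using h1

end

end Pool.Agent.U317.CE
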