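import Pool.Agent.U317.CE.Perp

set_option autoImplicit false

/-! The system for the stationary points in terms of the true anomaly and of the position on the
circle, and the count of its solutions. -/

namespace Pool.Agent.U317.CE

open Set Real

noncomputable section

/-- `z = (ψ, x, y)`: `ψ` the true anomaly on the ellipse, `(x, y)` the unit vector on the circle -/
def Z (e c w R : ℝ) : Set (ℝ × ℝ × ℝ) :=
  {z | z.2.1 ^ 2 + z.2.2 ^ 2 = 1 ∧ z.2.2 * cos (z.1 - w) = c * z.2.1 * sin (z.1 - w) ∧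
    kk e z.1 * (z.2.1 * (e * sin w - sin (z.1 - w)) + c * z.2.2 * (cos (z.1 - w) + e * cos w))
      = R * e * sin z.1}

lemma tau {e c w R : ℝ} (hc0 : c ≠ 0) {z : ℝ × ℝ × ℝ} (hz : z ∈ Z e c w R) :
    ∃ τ : ℝ, τ ^ 2 * Af c w z.1 = 1 ∧ z.2.1 = τ * cos (z.1 - w) ∧ z.2.2 = τ * (c * sin (z.1 - w)) ∧
      kk e z.1 * Nf e c w z.1 * τ = R * e * sin z.1 := by
  obtain ⟨t, x, y⟩ := z
  obtain ⟨h1, h2, h3⟩ := hz
  simp only at h1 h2 h3 ⊢
  have hA := Af_pos hc0 w t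
  have hx : (x * cos (t - w) + y * (c * sin (t - w))) / Af c w t * cos (t - w) = x := by
    rw [div_mul_eq_mul_div, div_eq_iff hA.ne']
    simp only [Af]
    linear_combination (c * sin (t - w)) * h2
  have hy : (x * cos (t - w) + y * (c * sin (t - w))) / Af c w t * (c * sin (t - w)) = y := by
    rw [div_mul_eq_mul_div, div_eq_iff hA.ne']
    simp only [Af]
    linear_combination (- cos (t - w)) * h2
  refine ⟨(x * cos (t - w) + y * (c * sin (t - w))) / Af c w t, ?_, hx.symm, hy.symm, ?_⟩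
  · set τ := (x * cos (t - w) + y * (c * sin (t - w))) / Af c w t with hτ
    have e1 : τ ^ 2 * Af c w t = (τ * cos (t - w)) ^ 2 + (τ * (c * sin (t - w))) ^ 2 := by
      simp only [Af]; ring
    rw [e1, hx, hy, h1]
  · set τ := (x * cos (t - w) + y * (c * sin (t - w))) / Af c w t with hτ
    rw [← h3, ← hx, ← hy]
    have h4 := sin_sq_add_cos_sq (t - w)
    have hN : Nf e c w t = cos (t - w) * (e * sin w - sin (t - w))
        + c ^ 2 * sin (t - w) * (cos (t - w) + e * cos w) := by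
      simp only [Nf, kk, Af, Bf]
      rw [cos_eq' w t, sin_eq' w t]
      set a := sin (t - w)
      set b := cos (t - w)
      set p := cos w
      set q := sin w
      linear_combination (a*c^2*e*p + b*e*q) * h4
    rw [hN]
    ring

def Zp (e c w R : ℝ) : Set (ℝ × ℝ × ℝ) := {z | z ∈ Z e c w R ∧ z.1 ∈ Ioo 0 π}
def Zm (e c w R : ℝ) : Set (ℝ × ℝ × ℝ) := {z | z ∈ Z e c w R ∧ z.1 ∈ Ioo (-π) 0}
def Zat (e c w R ψ : ℝ) : Set (ℝ × ℝ × ℝ) := {z | z ∈ Z e c w R ∧ z.1 = ψ}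

lemma Zp_le {e c w R : ℝ} (he0 : 0 < e) (he1 : e < 1) (hc0 : c ≠ 0) (hR : 0 < R) :
    (Zp e c w R).encard ≤ (Sol e c w (R ^ 2 * e ^ 2)).encard := by
  have key : ∀ z ∈ Zp e c w R, kk e z.1 * Nf e c w z.1 ≠ 0 ∧
      z.2.1 = R * e * sin z.1 / (kk e z.1 * Nf e c w z.1) * cos (z.1 - w) ∧
      z.2.2 = R * e * sin z.1 / (kk e z.1 * Nf e c w z.1) * (c * sin (z.1 - w)) ∧
      (kk e z.1 * Nf e c w z.1) ^ 2 = R ^ 2 * e ^ 2 * (sin z.1 ^ 2 * Af c w z.1) := by
    rintro z ⟨hz, hz1⟩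
    obtain ⟨τ, h1, h2, h3, h4⟩ := tau hc0 hz
    have hY := sin_pos' hz1
    have hne : kk e z.1 * Nf e c w z.1 ≠ 0 := by
      intro h
      rw [h, zero_mul] at h4
      have : 0 < R * e * sin z.1 := by positivity
      linarith
    have hτ : τ = R * e * sin z.1 / (kk e z.1 * Nf e c w z.1) := by
      rw [eq_div_iff hne, ← h4]; ring
    refine ⟨hne, by rw [← hτ, ← h2], by rw [← hτ, ← h3], ?_⟩
    calc (kk e z.1 * Nf e c w z.1) ^ 2
        = (kk e z.1 * Nf e c w z.1) ^ 2 * (τ ^ 2 * Af c w z.1) := by rw [h1, mul_one]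
      _ = (kk e z.1 * Nf e c w z.1 * τ) ^ 2 * Af c w z.1 := by ring
      _ = _ := by rw [h4]; ring
  have hinj : InjOn (fun z : ℝ × ℝ × ℝ => z.1) (Zp e c w R) := by
    intro z hz z' hz' h
    obtain ⟨_, a1, a2, _⟩ := key z hz
    obtain ⟨_, b1, b2, _⟩ := key z' hz'
    simp only at h
    rw [← h] at b1 b2
    exact Prod.ext h (Prod.ext (a1.trans b1.symm) (a2.trans b2.symm))
  rw [← hinj.encard_image]
  refine Set.encard_le_encard ?_
  rintro _ ⟨z, hz, rfl⟩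
  exact ⟨hz.2, (key z hz).2.2.2⟩

lemma neg_mem {e c w R : ℝ} {z : ℝ × ℝ × ℝ} (hz : z ∈ Z e c w R) :
    ((-z.1, z.2.1, -z.2.2) : ℝ × ℝ × ℝ) ∈ Z e c (-w) R := by
  obtain ⟨t, x, y⟩ := z
  obtain ⟨h1, h2, h3⟩ := hz
  simp only [kk] at h1 h2 h3
  have e1 : -t - -w = -(t - w) := by ring
  refine ⟨?_, ?_, ?_⟩
  · simp only; linarith
  · simp only [e1, cos_neg, sin_neg]; linarith
  · simp only [e1, cos_neg, sin_neg, kk]; linear_combination -h3

def flip (z : ℝ × ℝ × ℝ) : ℝ × ℝ × ℝ := (-z.1, z.2.1, -z.2.2)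

lemma flip_inj : Function.Injective flip := by
  rintro ⟨t, x, y⟩ ⟨t', x', y'⟩ h
  simp only [flip, Prod.mk.injEq, neg_inj] at h
  obtain ⟨h1, h2, h3⟩ := h
  rw [h1, h2, h3]

lemma Zm_le {e c w R : ℝ} : (Zm e c w R).encard ≤ (Zp e c (-w) R).encard := by
  rw [← flip_inj.encard_image]
  refine Set.encard_le_encard ?_
  rintro _ ⟨z, hz, rfl⟩
  refine ⟨neg_mem hz.1, ?_⟩
  have := hz.2
  simp only [flip, mem_Ioo] at this ⊢
  constructor <;> linarith [this.1, this.2]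

/-- a set in which any two points are equal or exchanged by `g` has at most two elements -/
lemma encard_two {α : Type*} {S : Set α} (g : α → α)
    (h : ∀ z ∈ S, ∀ z' ∈ S, z' = z ∨ z' = g z) : S.encard ≤ 2 := by
  rcases S.eq_empty_or_nonempty with h0 | ⟨z, hz⟩
  · rw [h0]; simp
  · have : S ⊆ {z, g z} := by
      intro z' hz'
      rcases h z hz z' hz' with h1 | h1
      · exact Or.inl h1
      · exact Or.inr h1
    refine (Set.encard_le_encard this).trans ((Set.encard_insert_le _ _).trans ?_)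
    rw [Set.encard_singleton]
    norm_num

lemma Zat_le {e c w R ψ : ℝ} (hc0 : c ≠ 0) : (Zat e c w R ψ).encard ≤ 2 := by
  refine encard_two (fun z => (z.1, -z.2.1, -z.2.2)) ?_
  rintro ⟨t, x, y⟩ hz ⟨t', x', y'⟩ hz'
  obtain ⟨hz, h0⟩ := hz
  obtain ⟨hz', h0'⟩ := hz'
  obtain ⟨τ, h1, h2, h3, h4⟩ := tau hc0 hz
  obtain ⟨τ', h1', h2', h3', h4'⟩ := tau hc0 hz'
  simp only at *
  subst h0
  subst h0'
  have hA := Af_pos hc0 w t'
  have h5 : τ ^ 2 = τ' ^ 2 := mul_right_cancel₀ hA.ne' (h1.trans h1'.symm)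
  rcases sq_eq_sq_iff_eq_or_eq_neg.1 h5 with h | h
  · left
    rw [h2, h3, h2', h3', h]
  · right
    rw [h2, h3, h2', h3', h]
    simp only [neg_mul, neg_neg]

lemma Zat_empty {e c w R ψ : ℝ} (he0 : 0 < e) (he1 : e < 1) (hc0 : c ≠ 0) (hc : 1 - c ^ 2 ≠ 0)
    (hw : sin (2 * w) ≠ 0) (hψ : ψ = 0 ∨ ψ = π) : Zat e c w R ψ = ∅ := by
  ext z
  simp only [mem_empty_iff_false, iff_false]
  rintro ⟨hz, h0⟩
  obtain ⟨τ, h1, h2, h3, h4⟩ := tau hc0 hz
  rw [h0] at h1 h4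
  have hk := kk_pos he0 he1 ψ
  have hτ : τ ≠ 0 := by
    rintro rfl
    simp at h1
  have hs : sin ψ = 0 := by
    rcases hψ with rfl | rfl
    · exact sin_zero
    · exact sin_pi
  rw [hs, mul_zero] at h4
  have hN : Nf e c w ψ = 0 := by
    rcases mul_eq_zero.1 h4 with h | h
    · rcases mul_eq_zero.1 h with h | h
      · exact absurd h hk.ne'
      · exact h
    · exact absurd h hτ
  have hN2 : Nf e c w ψ = - (kk e ψ * Bf c w ψ) := by
    simp only [Nf, hs]; ring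
  rw [hN2, neg_eq_zero] at hN
  have hB : Bf c w ψ = 0 := by
    rcases mul_eq_zero.1 hN with h | h
    · exact absurd h hk.ne'
    · exact h
  simp only [Bf] at hB
  rcases mul_eq_zero.1 hB with h | h
  · exact hc h
  · apply hw
    rw [sin_two_mul]
    rcases hψ with rfl | rfl
    · rw [zero_sub, sin_neg, cos_neg] at h
      linarith
    · rw [sin_pi_sub, cos_pi_sub] at h
      linarith

/-- the full set of solutions -/
def ZZ (e c w R : ℝ) : Set (ℝ × ℝ × ℝ) := {z | z ∈ Z e c w R ∧ z.1 ∈ Ioc (-π) π}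

lemma ZZ_subset (e c w R : ℝ) :
    ZZ e c w R ⊆ Zp e c w R ∪ (Zm e c w R ∪ (Zat e c w R 0 ∪ Zat e c w R π)) := by
  rintro z ⟨hz, h1, h2⟩
  rcases lt_trichotomy z.1 0 with h | h | h
  · exact Or.inr (Or.inl ⟨hz, h1, h⟩)
  · exact Or.inr (Or.inr (Or.inl ⟨hz, h⟩))
  · rcases h2.lt_or_eq with h3 | h3
    · exact Or.inl ⟨hz, h, h3⟩
    · exact Or.inr (Or.inr (Or.inr ⟨hz, h3⟩))

lemma ZZ_le_sum (e c w R : ℝ) : (ZZ e c w R).encard ≤ (Zp e c w R).encard + ((Zm e c w R).encard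
    + ((Zat e c w R 0).encard + (Zat e c w R π).encard)) :=
  (Set.encard_le_encard (ZZ_subset e c w R)).trans ((Set.encard_union_le _ _).trans
    (add_le_add le_rfl ((Set.encard_union_le _ _).trans
      (add_le_add le_rfl (Set.encard_union_le _ _)))))

lemma ZZ_le_ne {e c w R : ℝ} (he0 : 0 < e) (he1 : e < 1) (hc0 : c ≠ 0) (hc1 : c ^ 2 ≤ 1)
    (hR : 0 < R) : (ZZ e c w R).encard ≤ 10 := by
  have h := ZZ_le_sum e c w R
  have hp := Zp_le (w := w) he0 he1 hc0 hR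
  have hm := (Zm_le (e := e) (c := c) (w := w) (R := R)).trans (Zp_le (w := -w) he0 he1 hc0 hR)
  rcases hc1.lt_or_eq with hc | hc
  · have hc' : 0 < 1 - c ^ 2 := by linarith
    have e1 : sin (2 * -w) = - sin (2 * w) := by rw [← sin_neg]; ring_nf
    rcases lt_trichotomy (sin (2 * w)) 0 with hw | hw | hw
    · have h1 := hp.trans (cntSol_neg he0 he1 hc0 hc' hw)
      have h2 := hm.trans (cntSol_pos he0 he1 hc0 hc'.ne' (by rw [e1]; linarith [hw]; ))
      rw [Zat_empty he0 he1 hc0 hc'.ne' hw.ne (Or.inl rfl),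
        Zat_empty he0 he1 hc0 hc'.ne' hw.ne (Or.inr rfl), Set.encard_empty] at h
      refine h.trans ((add_le_add h1 (add_le_add h2 le_rfl)).trans ?_)
      norm_num
    · have h1 := hp.trans (cntSol_zero he0 he1 hc0 hc'.ne' hw)
      have h2 := hm.trans (cntSol_zero he0 he1 hc0 hc'.ne' (by rw [e1, hw, neg_zero]))
      refine h.trans ((add_le_add h1 (add_le_add h2 (add_le_add (Zat_le hc0) (Zat_le hc0)))).trans
        ?_)
      norm_num
    · have h1 := hp.trans (cntSol_pos he0 he1 hc0 hc'.ne' hw.ne')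
      have h2 := hm.trans (cntSol_neg he0 he1 hc0 hc' (by rw [e1]; linarith))
      rw [Zat_empty he0 he1 hc0 hc'.ne' hw.ne' (Or.inl rfl),
        Zat_empty he0 he1 hc0 hc'.ne' hw.ne' (Or.inr rfl), Set.encard_empty] at h
      refine h.trans ((add_le_add h1 (add_le_add h2 le_rfl)).trans ?_)
      norm_num
  · have hc' : 1 - c ^ 2 = 0 := by linarith
    have h1 := hp.trans (cntSol_flat he0 he1 hc0 hc')
    have h2 := hm.trans (cntSol_flat he0 he1 hc0 hc')
    refine h.trans ((add_le_add h1 (add_le_add h2 (add_le_add (Zat_le hc0) (Zat_le hc0)))).trans ?_)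
    norm_num

/-! the perpendicular case -/

/-- the solutions off the line perpendicular to the node line -/
def V (e w R : ℝ) : Set (ℝ × ℝ × ℝ) := {z | z ∈ Z e 0 w R ∧ cos (z.1 - w) ≠ 0}

lemma V_spec {e w R : ℝ} {z : ℝ × ℝ × ℝ} (hz : z ∈ V e w R) : z.2.2 = 0 ∧ z.2.1 ^ 2 = 1 ∧
    kk e z.1 * N0 e w z.1 * z.2.1 = R * e * sin z.1 := by
  obtain ⟨⟨h1, h2, h3⟩, h4⟩ := hz
  rw [zero_mul, zero_mul] at h2
  have h5 : z.2.2 = 0 := by
    rcases mul_eq_zero.1 h2 with h | h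
    · exact h
    · exact absurd h h4
  refine ⟨h5, ?_, ?_⟩
  · rw [h5] at h1; linarith
  · rw [← h3]; simp only [N0]; ring

def Vp (e w R : ℝ) : Set (ℝ × ℝ × ℝ) := {z | z ∈ V e w R ∧ z.1 ∈ Ioo 0 π}
def Vm (e w R : ℝ) : Set (ℝ × ℝ × ℝ) := {z | z ∈ V e w R ∧ z.1 ∈ Ioo (-π) 0}
def Vat (e w R ψ : ℝ) : Set (ℝ × ℝ × ℝ) := {z | z ∈ V e w R ∧ z.1 = ψ}
def Wat (e w R s : ℝ) : Set (ℝ × ℝ × ℝ) :=
  {z | z ∈ Z e 0 w R ∧ z.1 ∈ Ioc (-π) π ∧ cos (z.1 - w) = 0 ∧ sin (z.1 - w) = s}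

lemma Vp_le {e w R : ℝ} (he0 : 0 < e) (hR : 0 < R) :
    (Vp e w R).encard ≤ (Sol0 e w (R ^ 2 * e ^ 2)).encard := by
  have key : ∀ z ∈ Vp e w R, z.2.2 = 0 ∧
      z.2.1 = R * e * sin z.1 / (kk e z.1 * N0 e w z.1) ∧
      (kk e z.1 * N0 e w z.1) ^ 2 = R ^ 2 * e ^ 2 * sin z.1 ^ 2 := by
    rintro z ⟨hz, hz1⟩
    obtain ⟨h1, h2, h3⟩ := V_spec hz
    have hY := sin_pos' hz1
    have hne : kk e z.1 * N0 e w z.1 ≠ 0 := by
      intro h
      rw [h, zero_mul] at h3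
      have : 0 < R * e * sin z.1 := by positivity
      linarith
    refine ⟨h1, ?_, ?_⟩
    · rw [eq_div_iff hne, ← h3]; ring
    · calc (kk e z.1 * N0 e w z.1) ^ 2
          = (kk e z.1 * N0 e w z.1) ^ 2 * z.2.1 ^ 2 := by rw [h2, mul_one]
        _ = (kk e z.1 * N0 e w z.1 * z.2.1) ^ 2 := by ring
        _ = _ := by rw [h3]; ring
  have hinj : InjOn (fun z : ℝ × ℝ × ℝ => z.1) (Vp e w R) := by
    intro z hz z' hz' h
    obtain ⟨a1, a2, _⟩ := key z hz
    obtain ⟨b1, b2, _⟩ := key z' hz'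
    simp only at h
    rw [← h] at b2
    exact Prod.ext h (Prod.ext (a2.trans b2.symm) (a1.trans b1.symm))
  rw [← hinj.encard_image]
  refine Set.encard_le_encard ?_
  rintro _ ⟨z, hz, rfl⟩
  exact ⟨hz.2, (key z hz).2.2⟩

lemma Vm_le {e w R : ℝ} : (Vm e w R).encard ≤ (Vp e (-w) R).encard := by
  rw [← flip_inj.encard_image]
  refine Set.encard_le_encard ?_
  rintro _ ⟨z, hz, rfl⟩
  refine ⟨⟨neg_mem hz.1.1, ?_⟩, ?_⟩
  · have := hz.1.2
    simp only [flip]
    rwa [show -z.1 - -w = -(z.1 - w) by ring, cos_neg]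
  · have := hz.2
    simp only [flip, mem_Ioo] at this ⊢
    constructor <;> linarith [this.1, this.2]

lemma Vat_le {e w R ψ : ℝ} : (Vat e w R ψ).encard ≤ 2 := by
  refine encard_two (fun z => (z.1, -z.2.1, -z.2.2)) ?_
  rintro ⟨t, x, y⟩ hz ⟨t', x', y'⟩ hz'
  obtain ⟨hz, h0⟩ := hz
  obtain ⟨hz', h0'⟩ := hz'
  obtain ⟨h1, h2, h3⟩ := V_spec hz
  obtain ⟨h1', h2', h3'⟩ := V_spec hz'
  simp only at *
  rw [h0, h0', h1, h1', neg_zero]
  rcases sq_eq_sq_iff_eq_or_eq_neg.1 (h2'.trans h2.symm) with h | h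
  · left; rw [h]
  · right; rw [h]

lemma Vat_empty {e w R ψ : ℝ} (he0 : 0 < e) (he1 : e < 1)
    (hw : sin w ≠ 0) (hψ : ψ = 0 ∨ ψ = π) : Vat e w R ψ = ∅ := by
  ext z
  simp only [mem_empty_iff_false, iff_false]
  rintro ⟨hz, h0⟩
  obtain ⟨h1, h2, h3⟩ := V_spec hz
  rw [h0] at h3
  have hk := kk_pos he0 he1 ψ
  have hτ : z.2.1 ≠ 0 := by
    intro h
    rw [h] at h2
    norm_num at h2
  have hs : sin ψ = 0 := by
    rcases hψ with rfl | rfl
    · exact sin_zero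
    · exact sin_pi
  rw [hs, mul_zero] at h3
  have hN : N0 e w ψ = 0 := by
    rcases mul_eq_zero.1 h3 with h | h
    · rcases mul_eq_zero.1 h with h | h
      · exact absurd h hk.ne'
      · exact h
    · exact absurd h hτ
  simp only [N0] at hN
  rcases hψ with rfl | rfl
  · rw [zero_sub, sin_neg] at hN
    have : sin w * (e + 1) = 0 := by linarith
    rcases mul_eq_zero.1 this with h | h
    · exact hw h
    · linarith
  · rw [sin_pi_sub] at hN
    have : sin w * (e - 1) = 0 := by linarith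
    rcases mul_eq_zero.1 this with h | h
    · exact hw h
    · linarith

lemma Wat_le {e w R s : ℝ} (he0 : 0 < e) (he1 : e < 1) : (Wat e w R s).encard ≤ 2 := by
  refine encard_two (fun z => (z.1, z.2.1, -z.2.2)) ?_
  rintro ⟨t, x, y⟩ hz ⟨t', x', y'⟩ hz'
  obtain ⟨⟨h1, -, h3⟩, h4, h5, h6⟩ := hz
  obtain ⟨⟨h1', -, h3'⟩, h4', h5', h6'⟩ := hz'
  simp only at *
  have hs : s ^ 2 = 1 := by
    have := sin_sq_add_cos_sq (t - w)
    rw [h5, h6] at this
    linarith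
  have ht : t' = t := by
    have e1 : cos (t' - t) = 1 := by
      rw [show t' - t = (t' - w) - (t - w) by ring, cos_sub, h5, h5', h6, h6']
      linarith
    have h7 := (Real.cos_eq_one_iff_of_lt_of_lt (by linarith [h4.2, h4'.1])
      (by linarith [h4.1, h4'.2])).1 e1
    linarith
  subst ht
  have hk := kk_pos he0 he1 t'
  have hne : e * sin w - sin (t' - w) ≠ 0 := by
    rw [h6]
    intro h
    have h8 : (e * sin w) ^ 2 = 1 := by rw [show e * sin w = s by linarith, hs]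
    have h9 := sin_sq_le_one w
    nlinarith [sq_nonneg (sin w), sq_nonneg e]
  have hx : x' = x := by
    have h10 : kk e t' * (e * sin w - sin (t' - w)) * x' = kk e t' * (e * sin w - sin (t' - w)) * x := by
      linarith
    exact mul_left_cancel₀ (mul_ne_zero hk.ne' hne) h10
  subst hx
  have hy : y' ^ 2 = y ^ 2 := by linarith
  rcases sq_eq_sq_iff_eq_or_eq_neg.1 hy with h | h
  · left; rw [h]
  · right; rw [h]

lemma ZZ_subset0 (e w R : ℝ) :
    ZZ e 0 w R ⊆ Vp e w R ∪ (Vm e w R ∪ (Vat e w R 0 ∪ (Vat e w R π ∪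
      (Wat e w R 1 ∪ Wat e w R (-1))))) := by
  rintro z ⟨hz, h1, h2⟩
  by_cases hc : cos (z.1 - w) = 0
  · have hs : sin (z.1 - w) = 1 ∨ sin (z.1 - w) = -1 := by
      have := sin_sq_add_cos_sq (z.1 - w)
      rw [hc] at this
      have h3 : sin (z.1 - w) ^ 2 = 1 := by linarith
      exact sq_eq_sq_iff_eq_or_eq_neg.1 (by rw [h3, one_pow])
    rcases hs with hs | hs
    · exact Or.inr (Or.inr (Or.inr (Or.inr (Or.inl ⟨hz, ⟨h1, h2⟩, hc, hs⟩))))
    · exact Or.inr (Or.inr (Or.inr (Or.inr (Or.inr ⟨hz, ⟨h1, h2⟩, hc, hs⟩))))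
  · rcases lt_trichotomy z.1 0 with h | h | h
    · exact Or.inr (Or.inl ⟨⟨hz, hc⟩, h1, h⟩)
    · exact Or.inr (Or.inr (Or.inl ⟨⟨hz, hc⟩, h⟩))
    · rcases h2.lt_or_eq with h3 | h3
      · exact Or.inl ⟨⟨hz, hc⟩, h, h3⟩
      · exact Or.inr (Or.inr (Or.inr (Or.inl ⟨⟨hz, hc⟩, h3⟩)))

lemma ZZ_le_sum0 (e w R : ℝ) : (ZZ e 0 w R).encard ≤ (Vp e w R).encard + ((Vm e w R).encard
    + ((Vat e w R 0).encard + ((Vat e w R π).encard +
      ((Wat e w R 1).encard + (Wat e w R (-1)).encard)))) :=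
  (Set.encard_le_encard (ZZ_subset0 e w R)).trans ((Set.encard_union_le _ _).trans
    (add_le_add le_rfl ((Set.encard_union_le _ _).trans
      (add_le_add le_rfl ((Set.encard_union_le _ _).trans
        (add_le_add le_rfl ((Set.encard_union_le _ _).trans
          (add_le_add le_rfl (Set.encard_union_le _ _)))))))))

lemma ZZ_le_zero {e w R : ℝ} (he0 : 0 < e) (he1 : e < 1) (hR : 0 < R) :
    (ZZ e 0 w R).encard ≤ 10 := by
  have h := ZZ_le_sum0 e w R
  have hp := Vp_le (w := w) he0 hR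
  have hm := (Vm_le (e := e) (w := w) (R := R)).trans (Vp_le (w := -w) he0 hR)
  have hW := add_le_add (Wat_le (w := w) (R := R) (s := 1) he0 he1)
    (Wat_le (w := w) (R := R) (s := -1) he0 he1)
  by_cases hq : sin w = 0
  · have h1 := hp.trans (cntSol0_flat he0 he1 hq)
    have h2 := hm.trans (cntSol0_flat he0 he1 (by rw [sin_neg, hq, neg_zero]))
    refine h.trans ((add_le_add h1 (add_le_add h2 (add_le_add Vat_le (add_le_add Vat_le hW)))).trans
      ?_)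
    norm_num
  · have hq' : sin (-w) ≠ 0 := by rw [sin_neg]; exact neg_ne_zero.2 hq
    rw [Vat_empty he0 he1 hq (Or.inl rfl), Vat_empty he0 he1 hq (Or.inr rfl),
      Set.encard_empty] at h
    rcases le_total (cos w * sin w) 0 with hpq | hpq
    · have h1 := hp.trans (cntSol0_neg he0 he1 hq hpq)
      have h2 := hm.trans (cntSol0_pos he0 he1 hq')
      refine h.trans ((add_le_add h1 (add_le_add h2 (add_le_add le_rfl (add_le_add le_rfl hW)))).trans
        ?_)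
      norm_num
    · have h1 := hp.trans (cntSol0_pos he0 he1 hq)
      have h2 := hm.trans (cntSol0_neg he0 he1 hq' (by rw [sin_neg, cos_neg]; linarith))
      refine h.trans ((add_le_add h1 (add_le_add h2 (add_le_add le_rfl (add_le_add le_rfl hW)))).trans
        ?_)
      norm_num

theorem ZZ_le {e c w R : ℝ} (he0 : 0 < e) (he1 : e < 1) (hc1 : c ^ 2 ≤ 1)
    (hR : 0 < R) : (ZZ e c w R).encard ≤ 10 := by
  by_cases hc : c = 0
  · subst hc
    exact ZZ_le_zero he0 he1 hR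
  · exact ZZ_le_ne he0 he1 hc hc1 hR

end

end Pool.Agent.U317.CE
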