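import Mathlib

set_option autoImplicit false

/-! Counting by Rolle's theorem. -/

namespace Pool.Agent.U317.CE

open Set

/-- If between any two points of `A` there is a point of `B`, then `A` has at most one point more
than `B`. -/
theorem interleave {A B : Set ℝ}
    (h : ∀ x ∈ A, ∀ y ∈ A, x < y → ∃ b ∈ B, x < b ∧ b < y) : A.encard ≤ B.encard + 1 := by
  by_cases hB : B.Finite
  · by_contra hlt
    push Not at hlt
    obtain ⟨n, hn⟩ : ∃ n : ℕ, B.encard = n := ⟨B.ncard, (hB.cast_ncard_eq).symm⟩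
    have h2 : ((n + 2 : ℕ) : ℕ∞) ≤ A.encard := by
      rw [hn] at hlt
      have := Order.add_one_le_of_lt hlt
      refine le_trans (le_of_eq ?_) this
      push_cast
      rw [add_assoc]
      norm_num
    obtain ⟨T, hTA, hT⟩ := Set.exists_subset_encard_eq h2
    have hTf : T.Finite := Set.finite_of_encard_eq_coe hT
    set F : Finset ℝ := hTf.toFinset with hF
    have hcard : F.card = n + 2 := by
      have h1 := hTf.encard_eq_coe_toFinset_card
      rw [hT] at h1
      exact_mod_cast h1.symm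
    let g := F.orderEmbOfFin hcard
    have hg : ∀ i, g i ∈ A := fun i => hTA (hTf.mem_toFinset.1 (Finset.orderEmbOfFin_mem F hcard i))
    have hb : ∀ i : Fin (n + 1), ∃ b ∈ B, g i.castSucc < b ∧ b < g i.succ := fun i =>
      h _ (hg _) _ (hg _) (g.strictMono (Fin.castSucc_lt_succ))
    choose b hbB hb1 hb2 using hb
    have hmono : StrictMono b := by
      intro i j hij
      have h3 : i.succ ≤ j.castSucc := by
        rw [Fin.le_def]
        simp only [Fin.val_succ, Fin.val_castSucc]
        exact hij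
      exact (hb2 i).trans_le ((g.monotone h3).trans (hb1 j).le)
    have h4 : (Set.range b).encard = (n + 1 : ℕ) := by
      rw [← Set.image_univ, hmono.injective.encard_image, Set.encard_univ]
      simp
    have h5 : (Set.range b).encard ≤ B.encard :=
      Set.encard_le_encard (by rintro _ ⟨i, rfl⟩; exact hbB i)
    rw [h4, hn] at h5
    have h6 : n + 1 ≤ n := by exact_mod_cast h5
    omega
  · rw [Set.not_finite, ← Set.encard_eq_top_iff] at hB
    rw [hB]
    simp

/-- Rolle's theorem as a counting statement on `(a, b)`. -/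
theorem rolle {f f' : ℝ → ℝ} {A B : Set ℝ} {a b : ℝ}
    (hf : ∀ x ∈ Ioo a b, HasDerivAt f (f' x) x) (v : ℝ)
    (hA : ∀ x ∈ A, x ∈ Ioo a b ∧ f x = v) (hB : ∀ x ∈ Ioo a b, f' x = 0 → x ∈ B) :
    A.encard ≤ B.encard + 1 := by
  refine interleave fun x hx y hy hxy => ?_
  obtain ⟨hx1, hx2⟩ := hA x hx
  obtain ⟨hy1, hy2⟩ := hA y hy
  have hsub : Icc x y ⊆ Ioo a b := fun z hz => ⟨hx1.1.trans_le hz.1, hz.2.trans_lt hy1.2⟩
  obtain ⟨z, hz, hz'⟩ := exists_hasDerivAt_eq_zero hxy
    (fun z hz => (hf z (hsub hz)).continuousAt.continuousWithinAt) (hx2.trans hy2.symm)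
    (fun z hz => hf z (hsub (Ioo_subset_Icc_self hz)))
  exact ⟨z, hB z (hsub (Ioo_subset_Icc_self hz)) hz', hz.1, hz.2⟩

end Pool.Agent.U317.CE
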