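import Pool.Agent.U317.CE.Plane

set_option autoImplicit false

/-! From the stationary points in space to the planar system. -/

namespace Pool.Agent.U317.CE

open Set Real

abbrev E3 := EuclideanSpace ℝ (Fin 3)

lemma exists_angle {x y : ℝ} (h : x ^ 2 + y ^ 2 = 1) :
    ∃ t ∈ Ioc (-π) π, cos t = x ∧ sin t = y := by
  set z : ℂ := ⟨x, y⟩ with hz
  have hn : ‖z‖ = 1 := by
    have h1 : ‖z‖ ^ 2 = 1 := by
      rw [Complex.sq_norm, Complex.normSq_apply]
      simp only [hz]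
      linarith
    have h2 := norm_nonneg z
    nlinarith
  have hz0 : z ≠ 0 := by
    intro h0
    rw [h0, norm_zero] at hn
    norm_num at hn
  refine ⟨Complex.arg z, ⟨Complex.neg_pi_lt_arg z, Complex.arg_le_pi z⟩, ?_, ?_⟩
  · rw [Complex.cos_arg hz0, hn, div_one]
  · rw [Complex.sin_arg, hn, div_one]

/-- two planes in space have a common direction -/
lemma exists_node {u₁ w₁ u₂ w₂ : E3} (h1 : ‖u₁‖ = 1) (h2 : ‖w₁‖ = 1) (h3 : inner ℝ u₁ w₁ = 0)
    (h4 : ‖u₂‖ = 1) (h5 : ‖w₂‖ = 1) (h6 : inner ℝ u₂ w₂ = 0) :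
    ∃ A B p q : ℝ, A ^ 2 + B ^ 2 = 1 ∧ p ^ 2 + q ^ 2 = 1 ∧
      A • u₁ + B • w₁ = -(p • u₂ + q • w₂) := by
  have hdep : ¬ LinearIndependent ℝ ![u₁, w₁, u₂, w₂] := by
    intro h
    have := h.fintype_card_le_finrank
    rw [finrank_euclideanSpace_fin] at this
    simp at this
  rw [Fintype.not_linearIndependent_iff] at hdep
  obtain ⟨g, hg, i, hi⟩ := hdep
  simp only [Fin.sum_univ_four, Matrix.cons_val_zero, Matrix.cons_val_one, Matrix.cons_val] at hg
  have hu1 : inner ℝ u₁ u₁ = (1 : ℝ) := by rw [real_inner_self_eq_norm_sq, h1]; norm_num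
  have hw1 : inner ℝ w₁ w₁ = (1 : ℝ) := by rw [real_inner_self_eq_norm_sq, h2]; norm_num
  have hu2 : inner ℝ u₂ u₂ = (1 : ℝ) := by rw [real_inner_self_eq_norm_sq, h4]; norm_num
  have hw2 : inner ℝ w₂ w₂ = (1 : ℝ) := by rw [real_inner_self_eq_norm_sq, h5]; norm_num
  have h3' : inner ℝ w₁ u₁ = (0 : ℝ) := by rw [real_inner_comm]; exact h3
  have h6' : inner ℝ w₂ u₂ = (0 : ℝ) := by rw [real_inner_comm]; exact h6
  have hv : g 0 • u₁ + g 1 • w₁ = -(g 2 • u₂ + g 3 • w₂) := by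
    rw [eq_neg_iff_add_eq_zero, ← hg]
    abel
  have hsq : g 0 ^ 2 + g 1 ^ 2 = g 2 ^ 2 + g 3 ^ 2 := by
    have e1 : inner ℝ (g 0 • u₁ + g 1 • w₁) (g 0 • u₁ + g 1 • w₁) = g 0 ^ 2 + g 1 ^ 2 := by
      simp only [inner_add_left, inner_add_right, real_inner_smul_left, real_inner_smul_right, hu1,
        hw1, h3, h3']
      ring
    have e2 : inner ℝ (g 2 • u₂ + g 3 • w₂) (g 2 • u₂ + g 3 • w₂) = g 2 ^ 2 + g 3 ^ 2 := by
      simp only [inner_add_left, inner_add_right, real_inner_smul_left, real_inner_smul_right, hu2,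
        hw2, h6, h6']
      ring
    rw [← e1, hv, inner_neg_neg, e2]
  have hpos : 0 < g 0 ^ 2 + g 1 ^ 2 := by
    by_contra hle
    have hz : g 0 ^ 2 + g 1 ^ 2 = 0 := le_antisymm (not_lt.1 hle) (by positivity)
    have h00 : g 0 = 0 := by nlinarith [sq_nonneg (g 0), sq_nonneg (g 1)]
    have h01 : g 1 = 0 := by nlinarith [sq_nonneg (g 0), sq_nonneg (g 1)]
    rw [hz] at hsq
    have h02 : g 2 = 0 := by nlinarith [sq_nonneg (g 2), sq_nonneg (g 3)]
    have h03 : g 3 = 0 := by nlinarith [sq_nonneg (g 2), sq_nonneg (g 3)]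
    apply hi
    fin_cases i
    · exact h00
    · exact h01
    · exact h02
    · exact h03
  set ρ := √(g 0 ^ 2 + g 1 ^ 2) with hρ
  have hρ0 : 0 < ρ := sqrt_pos.2 hpos
  have hρ2 : ρ ^ 2 = g 0 ^ 2 + g 1 ^ 2 := sq_sqrt hpos.le
  refine ⟨g 0 / ρ, g 1 / ρ, g 2 / ρ, g 3 / ρ, ?_, ?_, ?_⟩
  · rw [div_pow, div_pow, ← add_div, ← hρ2, div_self (by positivity)]
  · rw [div_pow, div_pow, ← add_div, ← hsq, ← hρ2, div_self (by positivity)]
  · have e1 : (g 0 / ρ) • u₁ + (g 1 / ρ) • w₁ = ρ⁻¹ • (g 0 • u₁ + g 1 • w₁) := by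
      rw [smul_add, smul_smul, smul_smul]; ring_nf
    have e2 : (g 2 / ρ) • u₂ + (g 3 / ρ) • w₂ = ρ⁻¹ • (g 2 • u₂ + g 3 • w₂) := by
      rw [smul_add, smul_smul, smul_smul]; ring_nf
    rw [e1, e2, hv, smul_neg]

lemma inner_expand {n m₁ m₂ : E3} {c : ℝ} (h1 : inner ℝ n n = (1 : ℝ)) (h2 : inner ℝ m₁ m₁ = (1 : ℝ))
    (h3 : inner ℝ m₂ m₂ = (1 : ℝ)) (h4 : inner ℝ n m₁ = (0 : ℝ)) (h5 : inner ℝ n m₂ = (0 : ℝ))
    (h6 : inner ℝ m₁ m₂ = c) (a b g a' b' g' : ℝ) :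
    inner ℝ (a • n + b • m₁ + g • m₂) (a' • n + b' • m₁ + g' • m₂)
      = a * a' + b * b' + g * g' + c * (b * g' + g * b') := by
  have h4' : inner ℝ m₁ n = (0 : ℝ) := by rw [real_inner_comm]; exact h4
  have h5' : inner ℝ m₂ n = (0 : ℝ) := by rw [real_inner_comm]; exact h5
  have h6' : inner ℝ m₂ m₁ = c := by rw [real_inner_comm]; exact h6
  simp only [inner_add_left, inner_add_right, real_inner_smul_left, real_inner_smul_right, h1, h2,
    h3, h4, h5, h6, h4', h5', h6']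
  ring

theorem main_bound (F u₁ w₁ u₂ w₂ : E3) (r a e : ℝ) (P P' Q Q' : ℝ → E3)
    (hr : 0 < r) (ha : 0 < a) (he0 : 0 < e) (he1 : e < 1)
    (hu₁ : ‖u₁‖ = 1) (hw₁ : ‖w₁‖ = 1) (huw₁ : inner ℝ u₁ w₁ = 0)
    (hu₂ : ‖u₂‖ = 1) (hw₂ : ‖w₂‖ = 1) (huw₂ : inner ℝ u₂ w₂ = 0)
    (hP : ∀ s : ℝ, P s = F + (r * cos s) • u₁ + (r * sin s) • w₁)
    (hP' : ∀ s : ℝ, P' s = (-(r * sin s)) • u₁ + (r * cos s) • w₁)
    (hQ : ∀ t : ℝ, Q t = F + (a * (e + cos t)) • u₂ + (a * √(1 - e ^ 2) * sin t) • w₂)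
    (hQ' : ∀ t : ℝ, Q' t = (-(a * sin t)) • u₂ + (a * √(1 - e ^ 2) * cos t) • w₂) :
    ({x : E3 × E3 | ∃ s t : ℝ, x = (P s, Q t) ∧ inner ℝ (P s - Q t) (P' s) = 0 ∧
      inner ℝ (P s - Q t) (Q' t) = 0}).encard ≤ 10 := by
  obtain ⟨A, B, p, q, hAB, hpq, hnode⟩ := exists_node hu₁ hw₁ huw₁ hu₂ hw₂ huw₂
  obtain ⟨w, -, hcw, hsw⟩ := exists_angle hpq
  have hu1 : inner ℝ u₁ u₁ = (1 : ℝ) := by rw [real_inner_self_eq_norm_sq, hu₁]; norm_num
  have hw1 : inner ℝ w₁ w₁ = (1 : ℝ) := by rw [real_inner_self_eq_norm_sq, hw₁]; norm_num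
  have hu2 : inner ℝ u₂ u₂ = (1 : ℝ) := by rw [real_inner_self_eq_norm_sq, hu₂]; norm_num
  have hw2 : inner ℝ w₂ w₂ = (1 : ℝ) := by rw [real_inner_self_eq_norm_sq, hw₂]; norm_num
  have huw₁' : inner ℝ w₁ u₁ = (0 : ℝ) := by rw [real_inner_comm]; exact huw₁
  have huw₂' : inner ℝ w₂ u₂ = (0 : ℝ) := by rw [real_inner_comm]; exact huw₂
  obtain ⟨n, hn⟩ : ∃ n : E3, n = A • u₁ + B • w₁ := ⟨_, rfl⟩
  obtain ⟨m₁, hm₁⟩ : ∃ m : E3, m = (-B) • u₁ + A • w₁ := ⟨_, rfl⟩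
  obtain ⟨m₂, hm₂⟩ : ∃ m : E3, m = q • u₂ + (-p) • w₂ := ⟨_, rfl⟩
  have hn2 : n = (-p) • u₂ + (-q) • w₂ := by rw [hn, hnode]; module
  obtain ⟨c, hc⟩ : ∃ c : ℝ, inner ℝ m₁ m₂ = c := ⟨_, rfl⟩
  have g1 : inner ℝ n n = (1 : ℝ) := by
    rw [hn]
    simp only [inner_add_left, inner_add_right, real_inner_smul_left, real_inner_smul_right, hu1,
      hw1, huw₁, huw₁']
    linarith
  have g2 : inner ℝ m₁ m₁ = (1 : ℝ) := by
    rw [hm₁]
    simp only [inner_add_left, inner_add_right, real_inner_smul_left, real_inner_smul_right, hu1,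
      hw1, huw₁, huw₁']
    linarith
  have g3 : inner ℝ m₂ m₂ = (1 : ℝ) := by
    rw [hm₂]
    simp only [inner_add_left, inner_add_right, real_inner_smul_left, real_inner_smul_right, hu2,
      hw2, huw₂, huw₂']
    linarith
  have g4 : inner ℝ n m₁ = (0 : ℝ) := by
    rw [hn, hm₁]
    simp only [inner_add_left, inner_add_right, real_inner_smul_left, real_inner_smul_right, hu1,
      hw1, huw₁, huw₁']
    ring
  have g5 : inner ℝ n m₂ = (0 : ℝ) := by
    rw [hn2, hm₂]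
    simp only [inner_add_left, inner_add_right, real_inner_smul_left, real_inner_smul_right, hu2,
      hw2, huw₂, huw₂']
    ring
  have hc1 : c ^ 2 ≤ 1 := by
    have h := abs_real_inner_le_norm m₁ m₂
    have e1 : ‖m₁‖ = 1 := by
      have : ‖m₁‖ ^ 2 = 1 := by rw [← real_inner_self_eq_norm_sq, g2]
      nlinarith [norm_nonneg m₁]
    have e2 : ‖m₂‖ = 1 := by
      have : ‖m₂‖ ^ 2 = 1 := by rw [← real_inner_self_eq_norm_sq, g3]
      nlinarith [norm_nonneg m₂]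
    rw [hc, e1, e2, mul_one] at h
    nlinarith [abs_le.1 h]
  have hb2 : 0 < 1 - e ^ 2 := by nlinarith
  obtain ⟨b, hb⟩ : ∃ b : ℝ, √(1 - e ^ 2) = b := ⟨_, rfl⟩
  have hb0 : 0 < b := by rw [← hb]; exact sqrt_pos.2 hb2
  have hbb : b ^ 2 = 1 - e ^ 2 := by rw [← hb]; exact sq_sqrt hb2.le
  rw [hb] at hQ hQ'
  have hR : 0 < a * (1 - e ^ 2) / r := by positivity
  let Φ : ℝ × ℝ × ℝ → E3 × E3 := fun z =>
    (F + (r * z.2.1) • n + (r * z.2.2) • m₁,
      F + (a * (1 - e ^ 2) / kk e z.1 * cos (z.1 - w)) • n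
        + (a * (1 - e ^ 2) / kk e z.1 * sin (z.1 - w)) • m₂)
  have hsub : {x : E3 × E3 | ∃ s t : ℝ, x = (P s, Q t) ∧ inner ℝ (P s - Q t) (P' s) = 0 ∧
      inner ℝ (P s - Q t) (Q' t) = 0} ⊆ Φ '' ZZ e c w (a * (1 - e ^ 2) / r) := by
    rintro _ ⟨s, t, rfl, C1, C2⟩
    -- the position on the circle
    obtain ⟨x, hx⟩ : ∃ x : ℝ, x = A * cos s + B * sin s := ⟨_, rfl⟩
    obtain ⟨y, hy⟩ : ∃ y : ℝ, y = A * sin s - B * cos s := ⟨_, rfl⟩
    have hs := sin_sq_add_cos_sq s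
    have hxy : x ^ 2 + y ^ 2 = 1 := by
      rw [hx, hy]
      linear_combination (A ^ 2 + B ^ 2) * hs + hAB
    have hcs : cos s = A * x - B * y := by
      rw [hx, hy]; linear_combination (-cos s) * hAB
    have hss : sin s = B * x + A * y := by
      rw [hx, hy]; linear_combination (-sin s) * hAB
    have hPs : P s = F + (r * x) • n + (r * y) • m₁ := by
      rw [hP s, hcs, hss, hn, hm₁]; module
    have hP's : P' s = (-(r * y)) • n + (r * x) • m₁ := by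
      rw [hP' s, hcs, hss, hn, hm₁]; module
    -- the position on the ellipse
    have ht := sin_sq_add_cos_sq t
    have hd : 0 < 1 + e * cos t := kk_pos he0 he1 t
    have hunit : (-(cos t + e) / (1 + e * cos t)) ^ 2 + (-(b * sin t) / (1 + e * cos t)) ^ 2 = 1 := by
      rw [div_pow, div_pow, ← add_div, div_eq_one_iff_eq (by positivity)]
      linear_combination (1 - e ^ 2) * ht + sin t ^ 2 * hbb
    obtain ⟨ψ, hψ, hX, hY⟩ := exists_angle hunit
    have hkk : kk e ψ * (1 + e * cos t) = 1 - e ^ 2 := by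
      simp only [kk]
      rw [hX]
      field_simp
      ring
    have hk := kk_pos he0 he1 ψ
    have hρ : a * (1 - e ^ 2) / kk e ψ = a * (1 + e * cos t) := by
      rw [div_eq_iff hk.ne', ← hkk]; ring
    have hX' : (1 + e * cos t) * cos ψ = -(cos t + e) := by
      rw [hX]; field_simp
    have hY' : (1 + e * cos t) * sin ψ = -(b * sin t) := by
      rw [hY]; field_simp
    have hXc : cos ψ = cos (ψ - w) * p - sin (ψ - w) * q := by rw [cos_eq' w ψ, hcw, hsw]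
    have hYc : sin ψ = cos (ψ - w) * q + sin (ψ - w) * p := by rw [sin_eq' w ψ, hcw, hsw]; ring
    obtain ⟨ca, hca⟩ : ∃ v : ℝ, v = cos (ψ - w) := ⟨_, rfl⟩
    obtain ⟨sa, hsa⟩ : ∃ v : ℝ, v = sin (ψ - w) := ⟨_, rfl⟩
    rw [← hca, ← hsa] at hXc hYc
    have hQt : Q t = F + (a * (1 + e * cos t) * ca) • n + (a * (1 + e * cos t) * sa) • m₂ := by
      rw [hQ t, hn2, hm₂]
      have e1 : a * (e + cos t) = -(a * ((1 + e * cos t) * cos ψ)) := by rw [hX']; ring
      have e2 : a * b * sin t = -(a * ((1 + e * cos t) * sin ψ)) := by rw [hY']; ring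
      rw [e1, e2, hXc, hYc]
      module
    have hQ't : Q' t = (a * b / kk e ψ) • ((e * q - sa) • n + (ca + e * p) • m₂) := by
      have e1 : -(a * sin t) = (a * b / kk e ψ) * sin ψ := by
        have : sin t = -((1 + e * cos t) * sin ψ) / b := by
          rw [hY']; field_simp
        rw [this, div_mul_eq_mul_div, eq_div_iff hk.ne']
        field_simp
        rw [hbb, ← hkk]
        ring
      have e2 : a * b * cos t = (a * b / kk e ψ) * (-(e + cos ψ)) := by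
        rw [div_mul_eq_mul_div, eq_div_iff hk.ne']
        have : cos t * kk e ψ = -(e + cos ψ) := by
          simp only [kk]
          linear_combination hX'
        rw [mul_assoc, this]
      rw [hQ' t, e1, e2, hn2, hm₂, hXc, hYc]
      match_scalars
      · ring
      · linear_combination (a * b / kk e ψ * e) * hpq
    have hdiff : P s - Q t = (r * x - a * (1 + e * cos t) * ca) • n + (r * y) • m₁
        + (-(a * (1 + e * cos t) * sa)) • m₂ := by
      rw [hPs, hQt]; module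
    have hP's2 : P' s = (-(r * y)) • n + (r * x) • m₁ + (0 : ℝ) • m₂ := by
      rw [hP's]; module
    have hQ't2 : Q' t = (a * b / kk e ψ) • ((e * q - sa) • n + (0 : ℝ) • m₁ + (ca + e * p) • m₂) := by
      rw [hQ't]; module
    have hρ0 : 0 < a * (1 + e * cos t) := by positivity
    have E1 : y * ca = c * x * sa := by
      rw [hdiff, hP's2, inner_expand g1 g2 g3 g4 g5 hc] at C1
      have h1 : r * (a * (1 + e * cos t)) * (y * ca - c * x * sa) = 0 := by linarith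
      rcases mul_eq_zero.1 h1 with h | h
      · exact absurd h (by positivity)
      · linarith
    have E2 : r * (x * (e * q - sa) + c * y * (ca + e * p)) = a * (1 + e * cos t) * e * sin ψ := by
      rw [hdiff, hQ't2, real_inner_smul_right, inner_expand g1 g2 g3 g4 g5 hc] at C2
      rcases mul_eq_zero.1 C2 with h | h
      · exact absurd h (by positivity)
      · rw [hYc]; linarith
    refine ⟨(ψ, x, y), ⟨⟨hxy, ?_, ?_⟩, hψ⟩, ?_⟩
    · simp only
      rw [← hca, ← hsa]; exact E1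
    · simp only
      rw [← hca, ← hsa, hcw, hsw]
      have h2 : x * (e * q - sa) + c * y * (ca + e * p)
          = a * (1 + e * cos t) * e * sin ψ / r := by
        rw [eq_div_iff hr.ne', ← E2]; ring
      rw [h2, ← hkk]
      ring
    · simp only [Φ]
      rw [← hca, ← hsa, hρ, hPs, hQt]
  refine (Set.encard_le_encard hsub).trans ((Set.encard_image_le _ _).trans ?_)
  exact ZZ_le he0 he1 hc1 hR

end Pool.Agent.U317.CE
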